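import Mathlib
import Pool.Agent.H621.Osc.Count

set_option autoImplicit false

/-!
The number of elements of a cycle whose orbits stay most of the time in a window.
-/

namespace Pool.Agent.H621.Uni

open Pool.Agent.H621.Osc

/-- the small subsets of `{1, ..., n}` -/
def small (n L : ℕ) : Finset (Finset ℕ) := (Finset.Icc 1 n).powerset.filter fun E => E.card ≤ L

/-- the times at which the orbit of `z` is above the window -/
noncomputable def bad (k : ℤ) (M : ℝ) (n : ℕ) (z : ℤ) : Finset ℕ :=
  (Finset.Icc 1 n).filter fun i => ¬ Real.log (((T k)^[i] z : ℤ) : ℝ) ≤ M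

/-- **Count.** -/
theorem card_robust (k : ℤ) (hk : k % 2 = 1) (Z G : Finset ℤ) (hT : ∀ z ∈ Z, T k z ∈ Z)
    (hG : G ⊆ Z) (m β ε τ : ℝ) (n V L : ℕ) (hm : 0 < m) (hlo : ∀ z ∈ Z, m ≤ z)
    (hhi : ∀ z ∈ G, Real.log z ≤ Real.log m + β * Real.log 3)
    (hbad : ∀ z ∈ G, (bad k (Real.log m + β * Real.log 3) n z).card ≤ L)
    (h2 : ∀ z ∈ G, ∀ z' ∈ G, |(z : ℝ) - z'| < 2 ^ n)
    (hε : ∀ z ∈ Z, |Real.log (1 + k / (3 * (z : ℝ)))| ≤ ε * Real.log 3)
    (hβ2 : β ≤ 2) (hτ : β - 1 + 2 * n * ε ≤ τ) (hτ1 : τ < 1)
    (hV : ∀ X : ℝ, (low τ n X).card ≤ V) :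
    G.card ≤ (2 ^ V * ((small n L).card * (small n L).card)) * (4 * n + 1) := by
  classical
  have hl3 : 0 < Real.log 3 := Real.log_pos (by norm_num)
  have hiter : ∀ z ∈ Z, ∀ i : ℕ, (T k)^[i] z ∈ Z := by
    intro z hz i
    induction i with
    | zero => exact hz
    | succ i ih => rw [Function.iterate_succ_apply']; exact hT _ ih
  rcases G.eq_empty_or_nonempty with hZ | ⟨zz, hzz⟩
  · rw [hZ]; simp
  have hε0 : 0 ≤ ε := by
    have := (abs_nonneg _).trans (hε zz (hG hzz))
    exact nonneg_of_mul_nonneg_left this hl3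
  -- the position
  set P : ℤ → ℝ := fun z => (Real.log z - Real.log m) / Real.log 3 + n * ε with hP
  set y : ℤ → ℕ → ℝ := fun z i => (i : ℝ) * al - P z with hy
  have hodds : ∀ z ∈ Z, ∀ i : ℕ, i ≤ n → y z i ≤ odds k z i ∧
      (Real.log (((T k)^[i] z : ℤ) : ℝ) ≤ Real.log m + β * Real.log 3 →
        (odds k z i : ℝ) ≤ y z i + 1 + τ) := by
    intro z hz i hi
    have h1 := log_iter k z hk (ε * Real.log 3)
      (fun j => by
        have : m ≤ (((T k)^[j] z : ℤ) : ℝ) := hlo _ (hiter z hz j)
        exact_mod_cast hm.trans_le this)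
      (fun j => hε _ (hiter z hz j)) i
    rw [abs_le] at h1
    have hz1 : m ≤ (((T k)^[i] z : ℤ) : ℝ) := hlo _ (hiter z hz i)
    have h3 : Real.log m ≤ Real.log (((T k)^[i] z : ℤ) : ℝ) := Real.log_le_log hm hz1
    have hin : (i : ℝ) * (ε * Real.log 3) ≤ n * ε * Real.log 3 := by
      have : (i : ℝ) ≤ n := by exact_mod_cast hi
      have h5 : 0 ≤ ε * Real.log 3 := by positivity
      nlinarith
    have key1 : (i : ℝ) * Real.log 2 - (Real.log z - Real.log m) - n * ε * Real.log 3 ≤
        odds k z i * Real.log 3 := by linarith [h1.1, h1.2]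
    have hyv : y z i * Real.log 3 =
        (i : ℝ) * Real.log 2 - (Real.log z - Real.log m) - n * ε * Real.log 3 := by
      simp only [hy, hP, al]
      field_simp
      ring
    constructor
    · refine le_of_mul_le_mul_right ?_ hl3
      rw [hyv]; exact key1
    · intro h4
      have key2 : (odds k z i : ℝ) * Real.log 3 ≤ (i : ℝ) * Real.log 2 - (Real.log z - Real.log m) +
          β * Real.log 3 + n * ε * Real.log 3 := by linarith [h1.1, h1.2]
      refine le_of_mul_le_mul_right ?_ hl3
      have : (y z i + 1 + τ) * Real.log 3 = y z i * Real.log 3 + (1 + τ) * Real.log 3 := by ring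
      rw [this, hyv]
      have h6 : (β + n * ε * 2) * Real.log 3 ≤ (1 + τ) * Real.log 3 := by
        apply mul_le_mul_of_nonneg_right _ hl3.le
        linarith
      linarith
  -- the key of the fibres
  set Φ : ℤ → ℤ := fun z => ∑ i ∈ Finset.Icc 1 n, (⌈y z i⌉ + ⌊y z i + τ⌋) with hΦ
  have hmono : ∀ z z' : ℤ, P z ≤ P z' → Φ z = Φ z' →
      ∀ i ∈ Finset.Icc 1 n, ⌈y z i⌉ = ⌈y z' i⌉ ∧ ⌊y z i + τ⌋ = ⌊y z' i + τ⌋ := by
    intro z z' hPP heq i hi
    have hle : ∀ j : ℕ, y z' j ≤ y z j := by
      intro j; simp only [hy]; linarith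
    have hle1 : ∀ j ∈ Finset.Icc 1 n, ⌈y z' j⌉ + ⌊y z' j + τ⌋ ≤ ⌈y z j⌉ + ⌊y z j + τ⌋ := by
      intro j _
      exact add_le_add (Int.ceil_le_ceil (hle j)) (Int.floor_le_floor (by linarith [hle j]))
    have h5 := (Finset.sum_eq_sum_iff_of_le hle1).1 heq.symm i hi
    have h6 : ⌈y z' i⌉ ≤ ⌈y z i⌉ := Int.ceil_le_ceil (hle i)
    have h7 : ⌊y z' i + τ⌋ ≤ ⌊y z i + τ⌋ := Int.floor_le_floor (by linarith [hle i])
    constructor <;> omega
  have hsame : ∀ z z' : ℤ, Φ z = Φ z' →
      ∀ i ∈ Finset.Icc 1 n, ⌈y z i⌉ = ⌈y z' i⌉ ∧ ⌊y z i + τ⌋ = ⌊y z' i + τ⌋ := by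
    intro z z' heq i hi
    rcases le_total (P z) (P z') with h | h
    · exact hmono z z' h heq i hi
    · have := hmono z' z h heq.symm i hi
      exact ⟨this.1.symm, this.2.symm⟩
  -- the image is small
  have himg : (G.image Φ).card ≤ 4 * n + 1 := by
    set A : ℤ := ∑ i ∈ Finset.Icc 1 n, (⌈(i : ℝ) * al - n * ε⌉ + ⌊(i : ℝ) * al - n * ε + τ⌋) with hA
    have hsub : G.image Φ ⊆ Finset.Icc (A - 4 * n) A := by
      intro φ hφ
      rw [Finset.mem_image] at hφ
      obtain ⟨z, hz, rfl⟩ := hφ
      have hz1 : Real.log m ≤ Real.log z := Real.log_le_log hm (hlo z (hG hz))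
      have hz2 := hhi z hz
      have hP1 : n * ε ≤ P z := by
        simp only [hP]
        have : 0 ≤ (Real.log z - Real.log m) / Real.log 3 := div_nonneg (by linarith) hl3.le
        linarith
      have hP2 : P z ≤ n * ε + 2 := by
        simp only [hP]
        have : (Real.log z - Real.log m) / Real.log 3 ≤ 2 := by
          rw [div_le_iff₀ hl3]
          nlinarith
        linarith
      rw [Finset.mem_Icc]
      constructor
      · have h1 : A ≤ ∑ i ∈ Finset.Icc 1 n, ((⌈y z i⌉ + ⌊y z i + τ⌋) + 4) := by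
          rw [hA]
          apply Finset.sum_le_sum
          intro i _
          have h2 : ⌈(i : ℝ) * al - n * ε⌉ ≤ ⌈y z i⌉ + 2 := by
            rw [← Int.ceil_add_ofNat]
            apply Int.ceil_le_ceil
            simp only [hy]
            linarith
          have h3 : ⌊(i : ℝ) * al - n * ε + τ⌋ ≤ ⌊y z i + τ⌋ + 2 := by
            rw [← Int.floor_add_ofNat]
            apply Int.floor_le_floor
            simp only [hy]
            linarith
          linarith
        rw [Finset.sum_add_distrib, Finset.sum_const, Nat.card_Icc, Nat.add_sub_cancel,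
          nsmul_eq_mul] at h1
        simp only [hΦ]
        linarith
      · rw [hA]
        simp only [hΦ]
        apply Finset.sum_le_sum
        intro i _
        apply add_le_add
        · apply Int.ceil_le_ceil
          simp only [hy]
          linarith
        · apply Int.floor_le_floor
          simp only [hy]
          linarith
    refine (Finset.card_le_card hsub).trans ?_
    rw [Int.card_Icc]
    omega
  -- the fibres are small
  have hfib : ∀ b ∈ G.image Φ, (G.filter fun z => Φ z = b).card ≤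
      2 ^ V * ((small n L).card * (small n L).card) := by
    intro b hb
    rw [Finset.mem_image] at hb
    obtain ⟨z0, hz0, rfl⟩ := hb
    set Lo := low τ n (P z0) with hLo
    set B := bad k (Real.log m + β * Real.log 3) n with hB
    have hcard : (Lo.powerset ×ˢ (small n L ×ˢ small n L)).card ≤
        2 ^ V * ((small n L).card * (small n L).card) := by
      rw [Finset.card_product, Finset.card_product, Finset.card_powerset]
      exact Nat.mul_le_mul_right _ (Nat.pow_le_pow_right (by norm_num) (hV _))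
    refine le_trans ?_ hcard
    apply Finset.card_le_card_of_injOn (fun z =>
      (Lo.filter fun i => ((odds k z i : ℕ) : ℤ) = ⌈y z0 i⌉ + 1,
        (B z, (B z).filter fun i => (T k)^[i - 1] z % 2 = 0)))
    · intro z hz
      simp only [Finset.coe_filter, Set.mem_ofPred_eq] at hz
      simp only [Finset.coe_product, Finset.coe_powerset, Set.mem_prod, Set.mem_preimage,
        Set.mem_powerset_iff, Finset.coe_subset, Finset.mem_coe]
      refine ⟨Finset.filter_subset _ _, ?_, ?_⟩
      · rw [small, Finset.mem_filter, Finset.mem_powerset]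
        exact ⟨Finset.filter_subset _ _, hbad z hz.1⟩
      · rw [small, Finset.mem_filter, Finset.mem_powerset]
        exact ⟨(Finset.filter_subset _ _).trans (Finset.filter_subset _ _),
          (Finset.card_le_card (Finset.filter_subset _ _)).trans (hbad z hz.1)⟩
    · intro z hz z' hz' heq
      simp only [Finset.coe_filter, Set.mem_ofPred_eq] at hz hz'
      simp only [Prod.mk.injEq] at heq
      obtain ⟨heq1, heq2, heq3⟩ := heq
      have hword : ∀ i, i ≤ n → odds k z i = odds k z' i := by
        intro i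
        induction i with
        | zero => intro _; simp [odds]
        | succ j ih =>
          intro hi2
          have ihj := ih (by omega)
          have himem : j + 1 ∈ Finset.Icc 1 n := Finset.mem_Icc.2 ⟨by omega, hi2⟩
          by_cases hb : j + 1 ∈ B z
          · have hb' : j + 1 ∈ B z' := heq2 ▸ hb
            have h3 := Finset.ext_iff.1 heq3 (j + 1)
            simp only [Finset.mem_filter, hb, hb', true_and, Nat.add_sub_cancel] at h3
            simp only [odds, ihj]
            by_cases h4 : (T k)^[j] z % 2 = 0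
            · rw [if_pos h4, if_pos (h3.1 h4)]
            · rw [if_neg h4, if_neg (fun h => h4 (h3.2 h))]
          · have hb' : j + 1 ∉ B z' := heq2 ▸ hb
            have hw1 : Real.log (((T k)^[j + 1] z : ℤ) : ℝ) ≤ Real.log m + β * Real.log 3 := by
              by_contra hcon
              exact hb (Finset.mem_filter.2 ⟨himem, hcon⟩)
            have hw2 : Real.log (((T k)^[j + 1] z' : ℤ) : ℝ) ≤ Real.log m + β * Real.log 3 := by
              by_contra hcon
              exact hb' (Finset.mem_filter.2 ⟨himem, hcon⟩)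
            have e1 := hsame z z0 hz.2 (j + 1) himem
            have e2 := hsame z' z0 hz'.2 (j + 1) himem
            have gen : ∀ w ∈ G, Real.log (((T k)^[j + 1] w : ℤ) : ℝ) ≤ Real.log m + β * Real.log 3 →
                ⌈y w (j + 1)⌉ = ⌈y z0 (j + 1)⌉ → ⌊y w (j + 1) + τ⌋ = ⌊y z0 (j + 1) + τ⌋ →
                ((odds k w (j + 1) : ℕ) : ℤ) = ⌈y z0 (j + 1)⌉ ∨
                (((odds k w (j + 1) : ℕ) : ℤ) = ⌈y z0 (j + 1)⌉ + 1 ∧ j + 1 ∈ Lo) := by
              intro w hw hwin hc hf
              have ho := hodds w (hG hw) (j + 1) hi2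
              have ho2 := ho.2 hwin
              have g1 : ⌈y w (j + 1)⌉ ≤ ((odds k w (j + 1) : ℕ) : ℤ) := by
                rw [Int.ceil_le]; exact_mod_cast ho.1
              have g2 : ((odds k w (j + 1) : ℕ) : ℤ) < ⌈y w (j + 1)⌉ + 2 := by
                have : ((odds k w (j + 1) : ℕ) : ℝ) < ⌈y w (j + 1)⌉ + 2 := by
                  have := Int.le_ceil (y w (j + 1))
                  linarith
                exact_mod_cast this
              rcases (by omega : ((odds k w (j + 1) : ℕ) : ℤ) = ⌈y w (j + 1)⌉ ∨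
                ((odds k w (j + 1) : ℕ) : ℤ) = ⌈y w (j + 1)⌉ + 1) with h | h
              · left; rw [h, hc]
              · right
                refine ⟨by rw [h, hc], ?_⟩
                rw [hLo]
                unfold low
                rw [Finset.mem_filter]
                refine ⟨himem, ?_⟩
                have g3 : ⌈y w (j + 1)⌉ ≤ ⌊y w (j + 1) + τ⌋ := by
                  rw [Int.le_floor]
                  have : ((odds k w (j + 1) : ℕ) : ℝ) = ⌈y w (j + 1)⌉ + 1 := by exact_mod_cast h
                  linarith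
                rw [hc, hf] at g3
                exact g3
            have a1 := gen z hz.1 hw1 e1.1 e1.2
            have a2 := gen z' hz'.1 hw2 e2.1 e2.2
            have hiff : (j + 1 ∈ Lo ∧ ((odds k z (j + 1) : ℕ) : ℤ) = ⌈y z0 (j + 1)⌉ + 1) ↔
                (j + 1 ∈ Lo ∧ ((odds k z' (j + 1) : ℕ) : ℤ) = ⌈y z0 (j + 1)⌉ + 1) := by
              have := Finset.ext_iff.1 heq1 (j + 1)
              simpa [Finset.mem_filter] using this
            rcases a1 with a1 | ⟨a1, b1⟩ <;> rcases a2 with a2 | ⟨a2, b2⟩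
            · have : ((odds k z (j + 1) : ℕ) : ℤ) = ((odds k z' (j + 1) : ℕ) : ℤ) := by rw [a1, a2]
              exact_mod_cast this
            · have := (hiff.2 ⟨b2, a2⟩).2
              omega
            · have := (hiff.1 ⟨b1, a1⟩).2
              omega
            · have : ((odds k z (j + 1) : ℕ) : ℤ) = ((odds k z' (j + 1) : ℕ) : ℤ) := by rw [a1, a2]
              exact_mod_cast this
      have hdvd := dvd_of_odds k hk n z z' (fun i _ hi => hword i hi)
      have hlt := h2 z hz.1 z' hz'.1
      by_contra hne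
      have hne' : z - z' ≠ 0 := sub_ne_zero.2 hne
      have := Int.le_of_dvd (abs_pos.2 hne') ((dvd_abs _ _).2 hdvd)
      have h3 : (2 : ℝ) ^ n ≤ |(z : ℝ) - z'| := by exact_mod_cast this
      linarith
  exact (Finset.card_le_mul_card_image G _ hfib).trans (Nat.mul_le_mul_left _ himg)

/-- the number of small sets -/
theorem card_small (n L : ℕ) (x : ℝ) (hx : 0 < x) (hx1 : x ≤ 1) :
    ((small n L).card : ℝ) * x ^ L ≤ (1 + x) ^ n := by
  have h1 := Finset.sum_pow_mul_eq_add_pow x 1 (Finset.Icc 1 n)
  rw [Nat.card_Icc, Nat.add_sub_cancel] at h1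
  simp only [one_pow, mul_one] at h1
  rw [add_comm 1 x, ← h1, small]
  calc (((Finset.Icc 1 n).powerset.filter fun E => E.card ≤ L).card : ℝ) * x ^ L
      = ∑ E ∈ (Finset.Icc 1 n).powerset.filter fun E => E.card ≤ L, x ^ L := by
        rw [Finset.sum_const, nsmul_eq_mul]
    _ ≤ ∑ E ∈ (Finset.Icc 1 n).powerset.filter fun E => E.card ≤ L, x ^ E.card := by
        apply Finset.sum_le_sum
        intro E hE
        exact pow_le_pow_of_le_one hx.le hx1 (Finset.mem_filter.1 hE).2
    _ ≤ ∑ E ∈ (Finset.Icc 1 n).powerset, x ^ E.card := by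
        apply Finset.sum_le_sum_of_subset_of_nonneg (Finset.filter_subset _ _)
        intro E _ _
        positivity

end Pool.Agent.H621.Uni
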