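import Mathlib
import Pool.Agent.H621.Osc.Measure
import Pool.Agent.H621.Osc.Visits
import Pool.Agent.H621.Uni.PNT

set_option autoImplicit false

/-!
A lower bound for `|u log 2 - o log 3|` with the exponent `9`, and good denominators.
-/

namespace Pool.Agent.H621.Uni

open Filter Pool.Agent.H621.Osc

theorem lcm_bound : ∃ C : ℝ, 1 ≤ C ∧ ∀ n : ℕ, (Nat.lcmUpto n : ℝ) ≤ C * Real.exp (1.01 * n) := by
  have h1 : ∀ᶠ x : ℝ in atTop, Chebyshev.psi x / x < 1.01 :=
    Pool.Agent.H621.Uni.PNT.psi_div_tendsto.eventually (gt_mem_nhds (by norm_num))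
  obtain ⟨x0, hx0⟩ := eventually_atTop.1 h1
  obtain ⟨n0, hn0⟩ := exists_nat_gt (max x0 1)
  refine ⟨∑ n ∈ Finset.range (n0 + 1), (Nat.lcmUpto n : ℝ) + 1, ?_, ?_⟩
  · have : 0 ≤ ∑ n ∈ Finset.range (n0 + 1), (Nat.lcmUpto n : ℝ) :=
      Finset.sum_nonneg fun i _ => Nat.cast_nonneg _
    linarith
  · intro n
    set S := ∑ n ∈ Finset.range (n0 + 1), (Nat.lcmUpto n : ℝ) with hS
    have hSn : 0 ≤ S := Finset.sum_nonneg fun i _ => Nat.cast_nonneg _
    have he : 1 ≤ Real.exp (1.01 * n) := by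
      rw [← Real.exp_zero]; apply Real.exp_le_exp.2; positivity
    rcases le_or_gt n n0 with h | h
    · have h2 : (Nat.lcmUpto n : ℝ) ≤ S := by
        rw [hS]
        exact Finset.single_le_sum (f := fun n => (Nat.lcmUpto n : ℝ))
          (fun i _ => Nat.cast_nonneg _) (Finset.mem_range.2 (by omega))
      nlinarith
    · have hn : max x0 1 < (n : ℝ) := hn0.trans (by exact_mod_cast h)
      have hn1 : (1 : ℝ) < n := lt_of_le_of_lt (le_max_right _ _) hn
      have h3 := hx0 n (le_of_lt (lt_of_le_of_lt (le_max_left _ _) hn))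
      rw [div_lt_iff₀ (by linarith), Chebyshev.psi_eq_log_lcmUpto] at h3
      have h4 : (Nat.lcmUpto n : ℝ) ≤ Real.exp (1.01 * n) := by
        rw [← Real.log_le_iff_le_exp (by exact_mod_cast Nat.lcmUpto_pos n)]
        exact h3.le
      nlinarith [Real.exp_pos (1.01 * (n:ℝ))]

set_option exponentiation.threshold 1000 in
theorem exp_num9 : Real.exp (19 * 1.01) ^ (9 + 1) * K ≤ 6000000000000 ^ 9 := by
  have h1 : Real.exp (19 * 1.01) ^ 10 ≤ Real.exp 1 ^ 192 := by
    rw [← Real.exp_nat_mul, ← Real.exp_nat_mul]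
    apply Real.exp_le_exp.2
    norm_num
  have h3 : Real.exp 1 ^ 192 ≤ 2.7182818286 ^ 192 :=
    pow_le_pow_left₀ (Real.exp_pos 1).le Real.exp_one_lt_d9.le _
  have h4 : (2.7182818286 : ℝ) ^ 192 * K ≤ 6000000000000 ^ 9 := by
    unfold K
    norm_num
  exact (mul_le_mul_of_nonneg_right (h1.trans h3) K_pos.le).trans h4

theorem exp_lt9 : Real.exp (19 * 1.01) < 6000000000000 := by
  refine lt_of_le_of_lt (Real.exp_le_exp.2 ?_) exp_lt
  norm_num

/-- **The measure.** -/
theorem measure9 : ∃ C : ℝ, 0 < C ∧ ∀ u o : ℤ, u < 2 * o → 3 * o < 2 * u →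
    1 ≤ C * ((u : ℝ) - o) ^ 9 * |(u : ℝ) * Real.log 2 - o * Real.log 3| := by
  obtain ⟨C, hC, hlcm⟩ := lcm_bound
  refine ⟨5040 * (C * Real.exp (3 * 1.01)) * (Real.exp (19 * 1.01) * K *
    (12 * (C * Real.exp (3 * 1.01))) ^ 9), ?_, fun u o h1 h2 => ?_⟩
  · have := K_pos
    positivity
  · have h := measure_gen C 1.01 9 hC (by norm_num) hlcm exp_num9 exp_lt9 (2 * o - u)
      (3 * o - 2 * u) (by linarith) (by linarith)
    rw [form_eq, abs_neg] at h
    have e : ((2 * o - u : ℤ) : ℝ) - ((3 * o - 2 * u : ℤ) : ℝ) = (u : ℝ) - o := by push_cast; ring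
    rw [e] at h
    exact h

theorem al_bounds : 1 / 2 < al ∧ al < 2 / 3 := by
  have h2 : 0 < Real.log 2 := Real.log_pos (by norm_num)
  have h3 : 0 < Real.log 3 := Real.log_pos (by norm_num)
  constructor
  · unfold al
    rw [div_lt_div_iff₀ (by norm_num) h3]
    have h : Real.log 3 < Real.log (2 ^ 2) := Real.log_lt_log (by norm_num) (by norm_num)
    rw [Real.log_pow] at h
    push_cast at h
    linarith
  · unfold al
    rw [div_lt_div_iff₀ h3 (by norm_num)]
    have h : Real.log (2 ^ 3) < Real.log (3 ^ 2) := Real.log_lt_log (by norm_num) (by norm_num)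
    rw [Real.log_pow, Real.log_pow] at h
    push_cast at h
    linarith

theorem al_irrational : Irrational al := by
  rintro ⟨r, hr⟩
  obtain ⟨C, hC, hm⟩ := measure9
  have hb := al_bounds
  have h3 : 0 < Real.log 3 := Real.log_pos (by norm_num)
  have hd : (0 : ℝ) < r.den := by exact_mod_cast r.den_pos
  have e : al * r.den = r.num := by
    rw [← hr]
    exact_mod_cast Rat.mul_den_eq_num r
  have h1 : ((r.den : ℤ)) < 2 * r.num := by
    have : (r.den : ℝ) < 2 * r.num := by rw [← e]; nlinarith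
    exact_mod_cast this
  have h2 : 3 * r.num < 2 * (r.den : ℤ) := by
    have : 3 * (r.num : ℝ) < 2 * r.den := by rw [← e]; nlinarith
    exact_mod_cast this
  have h := hm r.den r.num h1 h2
  have e0 : (((r.den : ℕ) : ℤ) : ℝ) * Real.log 2 - r.num * Real.log 3 = 0 := by
    rw [← e]
    unfold al
    push_cast
    field_simp
    ring
  rw [e0, abs_zero, mul_zero] at h
  linarith

/-- good denominators are unbounded -/
theorem exists_good (Q : ℕ) : ∃ (a : ℤ) (q : ℕ), Q < q ∧ Good a q := by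
  by_contra hcon
  push Not at hcon
  have hinf := Real.infinite_rat_abs_sub_lt_one_div_den_sq_of_irrational al_irrational
  apply hinf
  have hden : ∀ r : ℚ, |al - r| < 1 / (r.den : ℝ) ^ 2 → r.den ≤ Q := by
    intro r hr
    by_contra hgt
    refine hcon r.num r.den (not_le.1 hgt) ⟨r.den_pos, ?_, ?_⟩
    · rw [Int.isCoprime_iff_gcd_eq_one]
      exact r.reduced
    · have hd : (0 : ℝ) < r.den := by exact_mod_cast r.den_pos
      have e : (r.den : ℝ) * al - r.num = (al - r) * r.den := by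
        have : (r : ℝ) * r.den = r.num := by exact_mod_cast Rat.mul_den_eq_num r
        rw [sub_mul, this]; ring
      rw [e, abs_mul, abs_of_pos hd]
      rw [lt_div_iff₀ (by positivity)] at hr
      nlinarith
  have hb := al_bounds
  apply Set.Finite.subset (Set.Finite.image (fun p : ℤ × ℤ => (p.1 : ℚ) / p.2)
    ((Set.finite_Icc (-(2 * Q : ℤ)) (2 * Q)).prod (Set.finite_Icc (0 : ℤ) Q)))
  intro r hr
  have h1 := hden r hr
  have hd : (0 : ℝ) < r.den := by exact_mod_cast r.den_pos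
  have hd1 : (1 : ℝ) ≤ r.den := by exact_mod_cast r.den_pos
  refine ⟨(r.num, (r.den : ℤ)), ⟨?_, ?_⟩, ?_⟩
  · have h2 : |al - r| < 1 := by
      refine lt_of_lt_of_le hr ?_
      rw [div_le_one (by positivity)]
      nlinarith
    have e : (r : ℝ) * r.den = r.num := by exact_mod_cast Rat.mul_den_eq_num r
    have h3 : |(r : ℝ)| ≤ 2 := by
      rw [abs_lt] at h2
      rw [abs_le]
      constructor <;> linarith [h2.1, h2.2]
    have h4 : |(r.num : ℝ)| ≤ 2 * Q := by
      rw [← e, abs_mul, abs_of_pos hd]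
      have : (r.den : ℝ) ≤ Q := by exact_mod_cast h1
      nlinarith [abs_nonneg (r : ℝ)]
    have h5 : |r.num| ≤ 2 * Q := by exact_mod_cast h4
    exact abs_le.1 h5
  · have h6 : (r.den : ℤ) ≤ Q := by exact_mod_cast h1
    exact ⟨by positivity, h6⟩
  · simp only
    exact_mod_cast Rat.num_div_den r

end Pool.Agent.H621.Uni
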