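import Mathlib
import Pool.Agent.H621.Uni.Count
import Pool.Agent.H621.Uni.Meas
import Pool.Agent.H621.Osc.Cyc

set_option autoImplicit false

/-!
Cycles of the `3x+k` maps which are concentrated near their least element.
-/

namespace Pool.Agent.H621.Uni

open Pool.Agent.H621.Osc

theorem T_injOn {k : ℤ} {Z : Finset ℤ} (h : IsCycle k Z) (i : ℕ) :
    ∀ z ∈ Z, ∀ z' ∈ Z, (T k)^[i] z = (T k)^[i] z' → z = z' := by
  intro z hz z' hz' heq
  obtain ⟨h1, h2, _⟩ := cyc_eq h z hz
  obtain ⟨_, h2', _⟩ := cyc_eq h z' hz'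
  have e : ∀ w : ℤ, (T k)^[Z.card] w = w → ∀ c : ℕ, (T k)^[c * Z.card] w = w := by
    intro w hw c
    induction c with
    | zero => simp
    | succ c ih => rw [Nat.succ_mul, Function.iterate_add_apply, hw, ih]
  have f1 := e z h2 i
  have f2 := e z' h2' i
  have hi : i * Z.card = (i * Z.card - i) + i := by
    have : i ≤ i * Z.card := Nat.le_mul_of_pos_right i h1
    omega
  rw [hi, Function.iterate_add_apply] at f1 f2
  rw [← f1, ← f2, heq]

set_option maxHeartbeats 1000000 in
/-- most elements have few bad times -/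
theorem many_good {k : ℤ} {Z : Finset ℤ} (h : IsCycle k Z) (M δ : ℝ) (hδ : 0 < δ) (hδ1 : δ ≤ 1 / 4)
    (hc : ((Z.filter fun z : ℤ => ¬ Real.log (z : ℝ) ≤ M).card : ℝ) ≤ δ * Z.card) (n L : ℕ) (hn : 1 ≤ n)
    (hL : 4 * δ * n ≤ L + 1) :
    (Z.card : ℝ) ≤ 2 * (Z.filter fun z : ℤ => Real.log (z : ℝ) ≤ M ∧ (bad k M n z).card ≤ L).card := by
  classical
  set W := Z.filter fun z : ℤ => ¬ Real.log (z : ℝ) ≤ M with hW
  have hsum : ∑ z ∈ Z, (bad k M n z).card ≤ n * W.card := by
    have e : ∑ z ∈ Z, (bad k M n z).card =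
        ∑ i ∈ Finset.Icc 1 n, (Z.filter fun z : ℤ => ¬ Real.log (((T k)^[i] z : ℤ) : ℝ) ≤ M).card := by
      simp only [bad, Finset.card_filter]
      rw [Finset.sum_comm]
    rw [e]
    calc ∑ i ∈ Finset.Icc 1 n, (Z.filter fun z : ℤ => ¬ Real.log (((T k)^[i] z : ℤ) : ℝ) ≤ M).card
        ≤ ∑ i ∈ Finset.Icc 1 n, W.card := by
          apply Finset.sum_le_sum
          intro i _
          apply Finset.card_le_card_of_injOn (fun z => (T k)^[i] z)
          · intro z hz
            rw [Finset.mem_coe, Finset.mem_filter] at hz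
            rw [Finset.mem_coe, hW, Finset.mem_filter]
            exact ⟨cyc_iter h z hz.1 i, hz.2⟩
          · intro z hz z' hz' heq
            rw [Finset.mem_coe, Finset.mem_filter] at hz hz'
            exact T_injOn h i z hz.1 z' hz'.1 heq
      _ = n * W.card := by rw [Finset.sum_const, Nat.card_Icc]; simp
  set Bd := Z.filter fun z : ℤ => L < (bad k M n z).card with hBd
  have hBd1 : (L + 1) * Bd.card ≤ n * W.card := by
    calc (L + 1) * Bd.card = ∑ z ∈ Bd, (L + 1) := by rw [Finset.sum_const, smul_eq_mul, mul_comm]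
      _ ≤ ∑ z ∈ Bd, (bad k M n z).card := by
          apply Finset.sum_le_sum
          intro z hz
          exact (Finset.mem_filter.1 hz).2
      _ ≤ ∑ z ∈ Z, (bad k M n z).card :=
          Finset.sum_le_sum_of_subset (Finset.filter_subset _ _)
      _ ≤ n * W.card := hsum
  have hn1 : (1 : ℝ) ≤ n := by exact_mod_cast hn
  have hBd2 : (Bd.card : ℝ) ≤ Z.card / 4 := by
    have h1 : ((L : ℝ) + 1) * Bd.card ≤ n * W.card := by exact_mod_cast hBd1
    have h2 : (4 * δ * n) * (Bd.card : ℝ) ≤ n * (δ * Z.card) := by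
      have h3 : (4 * δ * n) * (Bd.card : ℝ) ≤ ((L : ℝ) + 1) * Bd.card :=
        mul_le_mul_of_nonneg_right hL (Nat.cast_nonneg _)
      have h4 : (n : ℝ) * W.card ≤ n * (δ * Z.card) := by
        apply mul_le_mul_of_nonneg_left hc; positivity
      linarith
    have h5 : (n * δ) * (4 * (Bd.card : ℝ)) ≤ (n * δ) * Z.card := by linarith
    have h6 := le_of_mul_le_mul_left h5 (by positivity)
    linarith
  have hcover : Z ⊆ (Z.filter fun z : ℤ => Real.log (z : ℝ) ≤ M ∧ (bad k M n z).card ≤ L) ∪ (W ∪ Bd) := by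
    intro z hz
    simp only [Finset.mem_union, hW, hBd, Finset.mem_filter]
    by_cases h1 : Real.log (z : ℝ) ≤ M
    · by_cases h2 : (bad k M n z).card ≤ L
      · exact Or.inl ⟨hz, h1, h2⟩
      · exact Or.inr (Or.inr ⟨hz, not_le.1 h2⟩)
    · exact Or.inr (Or.inl ⟨hz, h1⟩)
  have h1 : Z.card ≤ (Z.filter fun z : ℤ => Real.log (z : ℝ) ≤ M ∧ (bad k M n z).card ≤ L).card +
      (W.card + Bd.card) :=
    (Finset.card_le_card hcover).trans ((Finset.card_union_le _ _).trans
      (Nat.add_le_add_left (Finset.card_union_le _ _) _))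
  have h2 : (Z.card : ℝ) ≤ (Z.filter fun z : ℤ => Real.log (z : ℝ) ≤ M ∧ (bad k M n z).card ≤ L).card +
      (W.card + Bd.card) := by exact_mod_cast h1
  have hZ0 : (0 : ℝ) ≤ Z.card := Nat.cast_nonneg _
  have h3 : (W.card : ℝ) ≤ Z.card / 4 := by nlinarith
  linarith

theorem low_mono (τ X : ℝ) {n n' : ℕ} (h : n ≤ n') : (low τ n X).card ≤ (low τ n' X).card := by
  apply Finset.card_le_card
  intro i hi
  unfold low at hi ⊢
  rw [Finset.mem_filter, Finset.mem_Icc] at hi ⊢
  exact ⟨⟨hi.1.1, by omega⟩, hi.2⟩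

/-- the number of small sets is small -/
theorem exists_lambda (η : ℝ) (hη : 0 < η) : ∃ lam : ℝ, 0 < lam ∧ ∀ n L : ℕ, (L : ℝ) ≤ lam * n →
    ((small n L).card : ℝ) ≤ (2 : ℝ) ^ (η * n) := by
  have hl2 : 0 < Real.log 2 := Real.log_pos (by norm_num)
  set x : ℝ := min 1 (η * Real.log 2 / 2) with hx
  have hx0 : 0 < x := lt_min one_pos (by positivity)
  have hx1 : x ≤ 1 := min_le_left _ _
  have hx2 : x ≤ η * Real.log 2 / 2 := min_le_right _ _
  have hlx : Real.log x ≤ 0 := Real.log_nonpos hx0.le hx1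
  refine ⟨η * Real.log 2 / (2 * (1 - Real.log x)), by
    apply div_pos (by positivity); linarith, fun n L hL => ?_⟩
  have h1 := card_small n L x hx0 hx1
  have hxL : 0 < x ^ L := by positivity
  rw [← le_div_iff₀ hxL] at h1
  refine h1.trans ?_
  rw [div_le_iff₀ hxL]
  -- logarithms
  have h2 : (1 + x) ^ n ≤ Real.exp (x * n) := by
    rw [mul_comm, Real.exp_nat_mul]
    apply pow_le_pow_left₀ (by positivity)
    have := Real.add_one_le_exp x
    linarith
  refine h2.trans ?_
  have h3 : (2 : ℝ) ^ (η * n) * x ^ L = Real.exp (Real.log 2 * (η * n) + Real.log x * L) := by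
    rw [Real.exp_add, Real.rpow_def_of_pos (by norm_num), ← Real.rpow_natCast x L,
      Real.rpow_def_of_pos hx0]
  rw [h3]
  apply Real.exp_le_exp.2
  have hn : (0 : ℝ) ≤ n := Nat.cast_nonneg n
  have h4 : x * n ≤ η * Real.log 2 / 2 * n := mul_le_mul_of_nonneg_right hx2 hn
  have h5 : -(Real.log x) * L ≤ η * Real.log 2 / 2 * n := by
    have h6 : (1 - Real.log x) * L ≤ η * Real.log 2 / 2 * n := by
      rw [div_mul_eq_mul_div, le_div_iff₀ (by linarith)] at hL
      linarith
    have hL0 : (0 : ℝ) ≤ L := Nat.cast_nonneg L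
    linarith
  linarith

set_option maxHeartbeats 4000000 in
/-- **The size of a concentrated cycle.** Let `m` be the least element of a cycle of positive
integers, at least `n |k|`. -/
theorem size_le (β η : ℝ) (hβ1 : 1 ≤ β) (hβ2 : β ≤ 11 / 10) (hη : 0 < η) (hη1 : η ≤ 1 / 100) :
    ∃ δ C : ℝ, 0 < δ ∧ 0 < C ∧ δ ≤ 1 / 4 ∧ ∀ (k : ℤ), k % 2 = 1 → ∀ Z : Finset ℤ, IsCycle k Z →
      ∀ m : ℤ, 1 ≤ m → (∀ z ∈ Z, m ≤ z) → |(k : ℝ)| ≤ m →
      ((Z.filter fun z : ℤ => ¬ (Real.log (z : ℝ) ≤ Real.log m + β * Real.log 3)).card : ℝ) ≤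
        δ * Z.card →
      (m : ℝ) ≤ C * |(k : ℝ)| * (m : ℝ) ^ η ∨
        (Z.card : ℝ) ≤ C * (m : ℝ) ^ (β - 1 + 5 * η) := by
  obtain ⟨lam, hlam, hsmall⟩ := exists_lambda η hη
  obtain ⟨Q, hQ⟩ := exists_nat_gt (2 / η)
  obtain ⟨a, q, hq, hgood⟩ := exists_good Q
  have hq0 : (0 : ℝ) < q := by exact_mod_cast (by omega : 0 < q)
  have hqη : 2 / (q : ℝ) ≤ η := by
    have h1 : 2 / η < q := hQ.trans (by exact_mod_cast hq)
    rw [div_lt_iff₀ hη] at h1
    rw [div_le_iff₀ hq0]
    linarith
  set δ : ℝ := min (1 / 4) (lam / 4) with hδ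
  have hδ0 : 0 < δ := lt_min (by norm_num) (by positivity)
  set C : ℝ := 36 / η ^ 2 + 2 * (2 ^ ((q : ℝ) + 2) * 18 * (18 * 18) * (180 / η)) with hC
  have hC1 : 0 < 36 / η ^ 2 := by positivity
  have hC2 : 0 < 2 * (2 ^ ((q : ℝ) + 2) * 18 * (18 * 18) * (180 / η)) := by positivity
  refine ⟨δ, C, hδ0, by positivity, min_le_left _ _, fun k hk Z hZ m hm hmin hkm hconc => ?_⟩
  have hmr : (1 : ℝ) ≤ m := by exact_mod_cast hm
  have hm0 : (0 : ℝ) < m := by linarith
  have hl3 : 0 < Real.log 3 := Real.log_pos (by norm_num)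
  have hl31 : 1 ≤ Real.log 3 := by
    rw [Real.le_log_iff_exp_le (by norm_num)]
    have := Real.exp_one_lt_d9
    linarith
  -- the number of steps
  set n := Nat.log 2 (9 * m.toNat) + 1 with hn
  have hmn : ((m.toNat : ℕ) : ℝ) = m := by
    have : ((m.toNat : ℕ) : ℤ) = m := Int.toNat_of_nonneg (by omega)
    exact_mod_cast this
  have hn1 : 1 ≤ n := by omega
  have h2n1 : 9 * (m : ℝ) < 2 ^ n := by
    have := Nat.lt_pow_succ_log_self (b := 2) (by norm_num) (9 * m.toNat)
    have h : ((9 * m.toNat : ℕ) : ℝ) < ((2 ^ n : ℕ) : ℝ) := by exact_mod_cast this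
    push_cast at h
    rwa [hmn] at h
  have h2n2 : (2 : ℝ) ^ n ≤ 18 * m := by
    have := Nat.pow_log_le_self 2 (show 9 * m.toNat ≠ 0 by omega)
    have h : ((2 ^ (Nat.log 2 (9 * m.toNat)) : ℕ) : ℝ) ≤ ((9 * m.toNat : ℕ) : ℝ) := by
      exact_mod_cast this
    push_cast at h
    rw [hmn] at h
    rw [hn, pow_succ]
    linarith
  have hn0 : (1 : ℝ) ≤ n := by exact_mod_cast hn1
  have hrp : ∀ t : ℝ, 0 ≤ t → (2 : ℝ) ^ (t * n) ≤ (18 * m) ^ t := by
    intro t ht
    rw [mul_comm, Real.rpow_mul (by norm_num), Real.rpow_natCast]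
    exact Real.rpow_le_rpow (by positivity) h2n2 ht
  have hrp18 : ∀ t : ℝ, 0 ≤ t → t ≤ 1 → (2 : ℝ) ^ (t * n) ≤ 18 * (m : ℝ) ^ t := by
    intro t ht ht1
    refine (hrp t ht).trans ?_
    rw [Real.mul_rpow (by norm_num) hm0.le]
    apply mul_le_mul_of_nonneg_right _ (by positivity)
    calc (18 : ℝ) ^ t ≤ 18 ^ (1 : ℝ) := Real.rpow_le_rpow_of_exponent_le (by norm_num) ht1
      _ = 18 := Real.rpow_one _
  have hnη : (n : ℝ) ≤ 36 / η * (m : ℝ) ^ η := by
    have h1 := hrp18 η hη.le (by linarith)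
    have h2 : 1 + η * n * Real.log 2 ≤ (2 : ℝ) ^ (η * n) := by
      rw [Real.rpow_def_of_pos (by norm_num)]
      have := Real.add_one_le_exp (Real.log 2 * (η * n))
      linarith
    have h3 : (1 : ℝ) / 2 < Real.log 2 := by
      have := Real.log_two_gt_d9
      linarith
    have h4 : η * n * (1 / 2) ≤ η * n * Real.log 2 := by
      apply mul_le_mul_of_nonneg_left h3.le; positivity
    have h5 : η * n ≤ 36 * (m : ℝ) ^ η := by linarith
    rw [div_mul_eq_mul_div, le_div_iff₀ hη]
    linarith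
  rcases le_or_gt ((n : ℝ) * |(k : ℝ)|) (η * m) with hcase | hcase
  swap
  · left
    have h1 : (m : ℝ) ≤ n * |(k : ℝ)| / η := by
      rw [le_div_iff₀ hη]; linarith
    refine h1.trans ?_
    rw [div_le_iff₀ hη]
    have h2 : (n : ℝ) * |(k : ℝ)| ≤ 36 / η * (m : ℝ) ^ η * |(k : ℝ)| :=
      mul_le_mul_of_nonneg_right hnη (abs_nonneg _)
    refine h2.trans ?_
    have e : 36 / η * (m : ℝ) ^ η * |(k : ℝ)| = 36 / η ^ 2 * |(k : ℝ)| * (m : ℝ) ^ η * η := by
      field_simp
    rw [e]
    apply mul_le_mul_of_nonneg_right _ hη.le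
    apply mul_le_mul_of_nonneg_right _ (by positivity)
    apply mul_le_mul_of_nonneg_right _ (abs_nonneg _)
    linarith
  · right
    set M : ℝ := Real.log m + β * Real.log 3 with hM
    set ε : ℝ := |(k : ℝ)| / (2 * m) with hε
    set τ : ℝ := β - 1 + η with hτ
    set L := ⌊lam * n⌋₊ with hL
    set G := Z.filter fun z : ℤ => Real.log (z : ℝ) ≤ M ∧ (bad k M n z).card ≤ L with hG
    set V := ⌊(β - 1 + 2 * η) * n + (q + 2)⌋₊ with hV
    have hLn : (L : ℝ) ≤ lam * n := Nat.floor_le (by positivity)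
    have hLn2 : 4 * δ * n ≤ L + 1 := by
      have h1 : lam * n < L + 1 := Nat.lt_floor_add_one _
      have h2 : 4 * δ ≤ lam := by
        have := min_le_right (1 / 4) (lam / 4)
        rw [← hδ] at this
        linarith
      nlinarith
    have hhalf := many_good hZ M δ hδ0 (min_le_left _ _) hconc n L hn1 hLn2
    have hcount := card_robust k hk Z G (cyc_closed hZ) (Finset.filter_subset _ _) m β ε τ n V L hm0
      (fun z hz => by exact_mod_cast hmin z hz) (fun z hz => (Finset.mem_filter.1 hz).2.1)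
      (fun z hz => (Finset.mem_filter.1 hz).2.2)
      (by
        have hup : ∀ z ∈ G, (z : ℝ) ≤ 9 * m := by
          intro z hz
          have h1 := (Finset.mem_filter.1 hz).2.1
          have hz0 : (0 : ℝ) < z := by
            have : (m : ℝ) ≤ z := by exact_mod_cast hmin z (Finset.mem_filter.1 hz).1
            linarith
          have h2 : Real.log z ≤ Real.log (9 * m) := by
            rw [Real.log_mul (by norm_num) hm0.ne', show (9 : ℝ) = 3 ^ 2 by norm_num, Real.log_pow]
            push_cast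
            nlinarith
          exact (Real.log_le_log_iff hz0 (by positivity)).1 h2
        intro z hz z' hz'
        have h1 := hup z hz
        have h2 := hup z' hz'
        have h3 : (m : ℝ) ≤ z := by exact_mod_cast hmin z (Finset.mem_filter.1 hz).1
        have h4 : (m : ℝ) ≤ z' := by exact_mod_cast hmin z' (Finset.mem_filter.1 hz').1
        rw [abs_lt]
        constructor <;> linarith)
      (by
        intro z hz
        have h3 : (m : ℝ) ≤ z := by exact_mod_cast hmin z hz
        have hz0 : (0 : ℝ) < z := by linarith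
        have e : |(k : ℝ) / (3 * z)| = |(k : ℝ)| / (3 * z) := by
          rw [abs_div, abs_of_pos (by positivity : (0 : ℝ) < 3 * z)]
        have h5 : |(k : ℝ)| / (3 * z) ≤ 1 / 3 := by
          rw [div_le_iff₀ (by positivity)]; linarith
        have h6 := abs_log_le (y := (k : ℝ) / (3 * z)) (by rw [e]; linarith)
        rw [e] at h6
        refine h6.trans ?_
        have h7 : |(k : ℝ)| / (3 * z) / (1 - |(k : ℝ)| / (3 * z)) ≤ ε := by
          rw [div_le_iff₀ (by linarith)]
          have h8 : |(k : ℝ)| / (3 * z) ≤ |(k : ℝ)| / (3 * m) := by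
            apply div_le_div_of_nonneg_left (abs_nonneg _) (by positivity) (by linarith)
          have h9 : |(k : ℝ)| / (3 * m) = ε * (2 / 3) := by rw [hε]; field_simp; try ring
          have h10 : 0 ≤ ε := by rw [hε]; positivity
          nlinarith
        refine h7.trans ?_
        have h10 : 0 ≤ ε := by rw [hε]; positivity
        nlinarith)
      (by linarith)
      (by
        have : 2 * n * ε ≤ η := by
          rw [hε]
          have e : 2 * (n : ℝ) * (|(k : ℝ)| / (2 * m)) = n * |(k : ℝ)| / m := by field_simp; try ring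
          rw [e, div_le_iff₀ hm0]
          exact hcase
        linarith)
      (by linarith)
      (by
        intro X
        have h1 := low_mono τ X (show n ≤ 0 + (n / q + 1) * q by
          have := Nat.div_add_mod n q
          have h2 := Nat.mod_lt n (show 0 < q by omega)
          nlinarith)
        have h2 := low_mul a q hgood τ X (by linarith) 0 (n / q + 1)
        rw [low_zero, Finset.card_empty] at h2
        have h3 : ((n / q : ℕ) : ℝ) ≤ n / q := Nat.cast_div_le
        have h4 : (((n / q + 1 : ℕ)) : ℝ) * (q * τ + 2) ≤ (β - 1 + 2 * η) * n + (q + 2) := by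
          push_cast
          have h5 : 0 ≤ (q : ℝ) * τ + 2 := by
            have : 0 ≤ τ := by linarith
            positivity
          have h6 : ((n : ℝ) / q + 1) * (q * τ + 2) = n * (τ + 2 / q) + (q * τ + 2) := by
            field_simp
            try ring
          have h7 : (q : ℝ) * τ ≤ q := by
            have : τ ≤ 1 := by linarith
            nlinarith
          have h8 : (n : ℝ) * (τ + 2 / q) ≤ n * (β - 1 + 2 * η) := by
            apply mul_le_mul_of_nonneg_left _ (by positivity)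
            linarith
          have h9 : (((n / q : ℕ) : ℝ) + 1) * (q * τ + 2) ≤ ((n : ℝ) / q + 1) * (q * τ + 2) :=
            mul_le_mul_of_nonneg_right (by linarith) h5
          linarith
        rw [hV]
        apply Nat.le_floor
        refine le_trans ?_ (h2.trans ?_)
        · exact_mod_cast h1
        · push_cast at h4 ⊢
          linarith)
    -- collect
    have hVr : (V : ℝ) ≤ (β - 1 + 2 * η) * n + (q + 2) := Nat.floor_le (by
      have : 0 ≤ β - 1 + 2 * η := by linarith
      positivity)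
    have hV2 : (2 : ℝ) ^ V ≤ 2 ^ ((q : ℝ) + 2) * (18 * (m : ℝ) ^ (β - 1 + 2 * η)) := by
      rw [← Real.rpow_natCast]
      calc (2 : ℝ) ^ (V : ℝ) ≤ 2 ^ ((β - 1 + 2 * η) * n + (q + 2)) :=
            Real.rpow_le_rpow_of_exponent_le (by norm_num) hVr
        _ = 2 ^ ((q : ℝ) + 2) * 2 ^ ((β - 1 + 2 * η) * n) := by
            rw [← Real.rpow_add (by norm_num)]; congr 1; ring
        _ ≤ _ := by
            apply mul_le_mul_of_nonneg_left _ (by positivity)
            exact hrp18 _ (by linarith) (by linarith)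
    have hS : ((small n L).card : ℝ) ≤ 18 * (m : ℝ) ^ η :=
      (hsmall n L hLn).trans (hrp18 η hη.le (by linarith))
    have hn4 : 4 * (n : ℝ) + 1 ≤ 180 / η * (m : ℝ) ^ η := by
      have e : 180 / η * (m : ℝ) ^ η = 5 * (36 / η * (m : ℝ) ^ η) := by ring
      rw [e]
      linarith
    have hcr : (G.card : ℝ) ≤ ((2 : ℝ) ^ V * ((small n L).card * (small n L).card)) * (4 * n + 1) := by
      exact_mod_cast hcount
    have hfin : (G.card : ℝ) ≤ (2 ^ ((q : ℝ) + 2) * 18 * (18 * 18) * (180 / η)) *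
        (m : ℝ) ^ (β - 1 + 5 * η) := by
      refine hcr.trans ?_
      have e : (m : ℝ) ^ (β - 1 + 5 * η) = (m : ℝ) ^ (β - 1 + 2 * η) * ((m : ℝ) ^ η * (m : ℝ) ^ η) *
          (m : ℝ) ^ η := by
        rw [← Real.rpow_add hm0, ← Real.rpow_add hm0, ← Real.rpow_add hm0]
        congr 1; ring
      rw [e]
      have h1 : ((small n L).card : ℝ) * (small n L).card ≤ (18 * (m : ℝ) ^ η) * (18 * (m : ℝ) ^ η) :=
        mul_le_mul hS hS (Nat.cast_nonneg _) (by positivity)
      calc ((2 : ℝ) ^ V * ((small n L).card * (small n L).card)) * (4 * n + 1)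
          ≤ ((2 ^ ((q : ℝ) + 2) * (18 * (m : ℝ) ^ (β - 1 + 2 * η))) *
            ((18 * (m : ℝ) ^ η) * (18 * (m : ℝ) ^ η))) * (180 / η * (m : ℝ) ^ η) := by
            apply mul_le_mul _ hn4 (by positivity) (by positivity)
            exact mul_le_mul hV2 h1 (by positivity) (by positivity)
        _ = _ := by ring
    calc (Z.card : ℝ) ≤ 2 * G.card := hhalf
      _ ≤ 2 * ((2 ^ ((q : ℝ) + 2) * 18 * (18 * 18) * (180 / η)) * (m : ℝ) ^ (β - 1 + 5 * η)) := by
          linarith
      _ ≤ C * (m : ℝ) ^ (β - 1 + 5 * η) := by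
          rw [← mul_assoc]
          apply mul_le_mul_of_nonneg_right _ (by positivity)
          linarith

end Pool.Agent.H621.Uni
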