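import Mathlib
import Pool.Agent.H621.Uni.Main

set_option autoImplicit false

/-!
Cycles of the `3x+k` maps which are concentrated near their least element: the bound.
-/

namespace Pool.Agent.H621.Uni

open Pool.Agent.H621.Osc

/-- the lower bound for the form: `2 m ≤ C p^10 |k|` -/
theorem form_bound : ∃ C : ℝ, 0 < C ∧ ∀ (k : ℤ), k % 2 = 1 → ∀ Z : Finset ℤ, IsCycle k Z →
    ∀ m : ℤ, 1 ≤ m → (∀ z ∈ Z, m ≤ z) → 50 * |(k : ℝ)| ≤ m →
    (m : ℝ) ≤ C * (Z.card : ℝ) ^ 10 * |(k : ℝ)| := by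
  obtain ⟨C, hC, hmeas⟩ := measure9
  refine ⟨C, hC, fun k hk Z hZ m hm hmin hkm => ?_⟩
  have hmr : (1 : ℝ) ≤ m := by exact_mod_cast hm
  have hm0 : (0 : ℝ) < m := by linarith
  have hk0 : 0 ≤ |(k : ℝ)| := abs_nonneg _
  obtain ⟨o, ho⟩ := cyc_form hk hZ (fun z hz => by have := hmin z hz; omega) (|(k : ℝ)| / (2 * m))
    (by
      intro z hz
      have h3 : (m : ℝ) ≤ z := by exact_mod_cast hmin z hz
      have hz0 : (0 : ℝ) < z := by linarith
      have e : |(k : ℝ) / (3 * z)| = |(k : ℝ)| / (3 * z) := by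
        rw [abs_div, abs_of_pos (by positivity : (0 : ℝ) < 3 * z)]
      have h5 : |(k : ℝ)| / (3 * z) ≤ 1 / 3 := by
        rw [div_le_iff₀ (by positivity)]; linarith
      have h6 := abs_log_le (y := (k : ℝ) / (3 * z)) (by rw [e]; linarith)
      rw [e] at h6
      refine h6.trans ?_
      rw [div_le_iff₀ (by linarith)]
      have h8 : |(k : ℝ)| / (3 * z) ≤ |(k : ℝ)| / (3 * m) := by
        apply div_le_div_of_nonneg_left hk0 (by positivity) (by linarith)
      have h9 : |(k : ℝ)| / (3 * m) = |(k : ℝ)| / (2 * m) * (2 / 3) := by field_simp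
      have h10 : 0 ≤ |(k : ℝ)| / (2 * m) := by positivity
      nlinarith)
  set p := Z.card with hp
  have hp1 : (1 : ℝ) ≤ p := by
    obtain ⟨x, hx⟩ := cyc_nonempty hZ
    have : 1 ≤ p := (cyc_eq hZ x hx).1
    exact_mod_cast this
  have hε : |(k : ℝ)| / (2 * m) ≤ 1 / 100 := by
    rw [div_le_iff₀ (by positivity)]; linarith
  have hl2a := Real.log_two_gt_d9
  have hl2b := Real.log_two_lt_d9
  have hl3a : 1.08 < Real.log 3 := by
    have h : Real.log (2 ^ 11) < Real.log (3 ^ 7) := Real.log_lt_log (by norm_num) (by norm_num)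
    rw [Real.log_pow, Real.log_pow] at h
    push_cast at h
    linarith
  have hl3b : Real.log 3 < 1.11 := by
    have h : Real.log (3 ^ 5) < Real.log (2 ^ 8) := Real.log_lt_log (by norm_num) (by norm_num)
    rw [Real.log_pow, Real.log_pow] at h
    push_cast at h
    linarith
  have ho1 := abs_le.1 ho
  have hpe : (p : ℝ) * (|(k : ℝ)| / (2 * m)) ≤ p * (1 / 100) :=
    mul_le_mul_of_nonneg_left hε (by positivity)
  have c1 : (p : ℝ) < 2 * o := by nlinarith [ho1.1, ho1.2]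
  have c2 : 3 * (o : ℝ) < 2 * p := by nlinarith [ho1.1, ho1.2]
  have h := hmeas p o (by exact_mod_cast c1) (by exact_mod_cast c2)
  push_cast at h
  have d1 : 0 ≤ (p : ℝ) - o := by linarith
  have d2 : (p : ℝ) - o ≤ p := by linarith
  have d3 : ((p : ℝ) - o) ^ 9 ≤ (p : ℝ) ^ 9 := pow_le_pow_left₀ d1 d2 9
  have d4 : C * ((p : ℝ) - o) ^ 9 * |(p : ℝ) * Real.log 2 - o * Real.log 3| ≤
      C * (p : ℝ) ^ 9 * (p * (|(k : ℝ)| / (2 * m))) := by
    apply mul_le_mul _ ho (abs_nonneg _) (by positivity)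
    exact mul_le_mul_of_nonneg_left d3 hC.le
  have d5 : C * (p : ℝ) ^ 9 * (p * (|(k : ℝ)| / (2 * m))) = C * (p : ℝ) ^ 10 * |(k : ℝ)| / (2 * m) := by
    field_simp
  rw [d5] at d4
  have d6 := h.trans d4
  rw [le_div_iff₀ (by positivity)] at d6
  linarith

/-- **Positive cycles.** -/
theorem least_le (β A : ℝ) (hβ1 : 1 ≤ β) (hβ2 : β < 11 / 10) (hA : 1 / (11 - 10 * β) < A) :
    ∃ δ C : ℝ, 0 < δ ∧ δ ≤ 1 / 4 ∧ 0 < C ∧ ∀ (k : ℤ), k % 2 = 1 → ∀ Z : Finset ℤ, IsCycle k Z →
      ∀ m : ℤ, 1 ≤ m → (∀ z ∈ Z, m ≤ z) → |(k : ℝ)| ≤ m →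
      ((Z.filter fun z : ℤ => ¬ (Real.log (z : ℝ) ≤ Real.log m + β * Real.log 3)).card : ℝ) ≤
        δ * Z.card →
      (m : ℝ) ≤ C * |(k : ℝ)| ^ A := by
  have hd : 0 < 11 - 10 * β := by linarith
  have hA0 : 0 < A := lt_trans (by positivity) hA
  set s : ℝ := 1 / A with hs
  have hs0 : 0 < s := by positivity
  have hs1 : s < 11 - 10 * β := by
    rw [hs, div_lt_iff₀ hA0]
    rw [div_lt_iff₀ hd] at hA
    linarith
  set η : ℝ := (11 - 10 * β - s) / 100 with hη
  have hη0 : 0 < η := by rw [hη]; linarith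
  have hη1 : η ≤ 1 / 100 := by rw [hη]; linarith
  obtain ⟨δ, C, hδ, hC, hδ1, hsize⟩ := size_le β η hβ1 hβ2.le hη0 hη1
  obtain ⟨C9, hC9, hform⟩ := form_bound
  set D : ℝ := C + 50 + C9 * C ^ 10 with hD
  have hD0 : 0 < D := by positivity
  refine ⟨δ, D ^ A, hδ, hδ1, by positivity, fun k hk Z hZ m hm hmin hkm hconc => ?_⟩
  have hmr : (1 : ℝ) ≤ m := by exact_mod_cast hm
  have hm0 : (0 : ℝ) < m := by linarith
  have hk0 : 0 ≤ |(k : ℝ)| := abs_nonneg _
  have key : (m : ℝ) ^ s ≤ D * |(k : ℝ)| := by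
    have hmono : ∀ t : ℝ, s ≤ t → (m : ℝ) ^ s ≤ (m : ℝ) ^ t := fun t ht =>
      Real.rpow_le_rpow_of_exponent_le hmr ht
    rcases hsize k hk Z hZ m hm hmin hkm hconc with h | h
    · have h1 : (m : ℝ) ^ (1 - η) ≤ C * |(k : ℝ)| := by
        rw [Real.rpow_sub hm0, Real.rpow_one, div_le_iff₀ (by positivity)]
        exact h
      have h2 := hmono (1 - η) (by linarith)
      have h3 : C * |(k : ℝ)| ≤ D * |(k : ℝ)| := by
        apply mul_le_mul_of_nonneg_right _ hk0
        rw [hD]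
        have : 0 < C9 * C ^ 10 := by positivity
        linarith
      linarith
    · rcases le_or_gt (50 * |(k : ℝ)|) m with hc | hc
      · have h1 := hform k hk Z hZ m hm hmin hc
        have h2 : (Z.card : ℝ) ^ 10 ≤ (C * (m : ℝ) ^ (β - 1 + 5 * η)) ^ 10 :=
          pow_le_pow_left₀ (Nat.cast_nonneg _) h 10
        have h3 : (C * (m : ℝ) ^ (β - 1 + 5 * η)) ^ 10 = C ^ 10 * (m : ℝ) ^ (10 * (β - 1 + 5 * η)) := by
          rw [mul_pow]
          congr 1
          rw [← Real.rpow_natCast, ← Real.rpow_mul hm0.le]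
          congr 1
          push_cast
          ring
        rw [h3] at h2
        have h4 : (m : ℝ) ≤ (C9 * C ^ 10 * |(k : ℝ)|) * (m : ℝ) ^ (10 * (β - 1 + 5 * η)) := by
          refine h1.trans ?_
          have h5 : C9 * (Z.card : ℝ) ^ 10 ≤ C9 * (C ^ 10 * (m : ℝ) ^ (10 * (β - 1 + 5 * η))) :=
            mul_le_mul_of_nonneg_left h2 hC9.le
          have h6 := mul_le_mul_of_nonneg_right h5 hk0
          refine h6.trans (le_of_eq ?_)
          ring
        have h5 : (m : ℝ) ^ (1 - 10 * (β - 1 + 5 * η)) ≤ C9 * C ^ 10 * |(k : ℝ)| := by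
          rw [Real.rpow_sub hm0, Real.rpow_one, div_le_iff₀ (by positivity)]
          exact h4
        have h6 := hmono (1 - 10 * (β - 1 + 5 * η)) (by
          have : 100 * η = 11 - 10 * β - s := by rw [hη]; ring
          linarith)
        have h7 : C9 * C ^ 10 * |(k : ℝ)| ≤ D * |(k : ℝ)| := by
          apply mul_le_mul_of_nonneg_right _ hk0
          linarith
        linarith
      · have h2 := hmono 1 (by linarith)
        rw [Real.rpow_one] at h2
        have h3 : 50 * |(k : ℝ)| ≤ D * |(k : ℝ)| := by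
          apply mul_le_mul_of_nonneg_right _ hk0
          have : 0 < C9 * C ^ 10 := by positivity
          linarith
        linarith
  have h1 : ((m : ℝ) ^ s) ^ A ≤ (D * |(k : ℝ)|) ^ A := Real.rpow_le_rpow (by positivity) key hA0.le
  rw [← Real.rpow_mul hm0.le, hs, one_div_mul_cancel hA0.ne', Real.rpow_one,
    Real.mul_rpow hD0.le hk0] at h1
  exact h1

theorem T_neg (k x : ℤ) (hk : k % 2 = 1) : T (-k) (-x) = -T k x := by
  unfold T
  split_ifs <;> omega

theorem iter_neg (k x : ℤ) (hk : k % 2 = 1) (i : ℕ) : (T (-k))^[i] (-x) = -(T k)^[i] x := by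
  induction i with
  | zero => rfl
  | succ i ih => rw [Function.iterate_succ_apply', ih, T_neg _ _ hk, Function.iterate_succ_apply']

theorem cyc_neg {k : ℤ} (hk : k % 2 = 1) {Z : Finset ℤ} (h : IsCycle k Z) :
    IsCycle (-k) (Z.image fun z => -z) := by
  obtain ⟨x, p, hp, hx, hZ⟩ := h
  refine ⟨-x, p, hp, ?_, ?_⟩
  · rw [iter_neg _ _ hk, hx]
  · rw [hZ, Finset.image_image]
    apply Finset.image_congr
    intro i _
    simp only [Function.comp]
    rw [iter_neg _ _ hk]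

theorem T_pos {k x : ℤ} (h : 0 < x) (hk : |k| < x) : 0 < T k x := by
  rw [abs_lt] at hk
  unfold T
  split_ifs <;> omega

theorem all_pos {k : ℤ} {Z : Finset ℤ} (h : IsCycle k Z) (hbig : ∀ z ∈ Z, |k| < |z|) (m : ℤ)
    (hm : m ∈ Z) (hm0 : 0 < m) : ∀ z ∈ Z, 0 < z := by
  have hi : ∀ i : ℕ, 0 < (T k)^[i] m := by
    intro i
    induction i with
    | zero => exact hm0
    | succ i ih =>
      rw [Function.iterate_succ_apply']
      apply T_pos ih
      have := hbig _ (cyc_iter h m hm i)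
      rwa [abs_of_pos ih] at this
  intro z hz
  rw [(cyc_eq h m hm).2.2, Finset.mem_image] at hz
  obtain ⟨i, _, rfl⟩ := hz
  exact hi i

/-- positive cycles, in the final form -/
theorem pos_final {β A δ C : ℝ}
    (hmain : ∀ (k : ℤ), k % 2 = 1 → ∀ Z : Finset ℤ, IsCycle k Z →
      ∀ m : ℤ, 1 ≤ m → (∀ z ∈ Z, m ≤ z) → |(k : ℝ)| ≤ m →
      ((Z.filter fun z : ℤ => ¬ (Real.log (z : ℝ) ≤ Real.log m + β * Real.log 3)).card : ℝ) ≤
        δ * Z.card → (m : ℝ) ≤ C * |(k : ℝ)| ^ A)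
    (k : ℤ) (hk : k % 2 = 1) (Z : Finset ℤ) (hZ : IsCycle k Z) (m : ℤ) (hm : m ∈ Z)
    (hmin : ∀ z ∈ Z, |m| ≤ |z|) (hkm : |k| < |m|) (hm0 : 0 < m)
    (hconc : ((Z.filter fun z : ℤ => (3 : ℝ) ^ β * |(m : ℝ)| < |(z : ℝ)|).card : ℝ) ≤ δ * Z.card) :
    (|m| : ℝ) ≤ C * |(k : ℝ)| ^ A := by
  have hpos := all_pos hZ (fun z hz => hkm.trans_le (hmin z hz)) m hm hm0
  have hmr : (0 : ℝ) < m := by exact_mod_cast hm0
  rw [abs_of_pos hmr]
  refine hmain k hk Z hZ m hm0 (fun z hz => ?_) ?_ ?_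
  · have := hmin z hz
    rwa [abs_of_pos hm0, abs_of_pos (hpos z hz)] at this
  · have : |k| ≤ m := by rw [abs_of_pos hm0] at hkm; exact hkm.le
    exact_mod_cast this
  · refine le_trans ?_ hconc
    apply Nat.cast_le.2
    apply Finset.card_le_card
    intro z hz
    rw [Finset.mem_filter] at hz ⊢
    refine ⟨hz.1, ?_⟩
    have hz0 : (0 : ℝ) < z := by exact_mod_cast hpos z hz.1
    rw [abs_of_pos hmr, abs_of_pos hz0]
    have h1 := not_le.1 hz.2
    have h2 : Real.log m + β * Real.log 3 = Real.log ((3 : ℝ) ^ β * m) := by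
      rw [Real.log_mul (by positivity) hmr.ne', Real.log_rpow (by norm_num)]
      ring
    rw [h2] at h1
    exact (Real.log_lt_log_iff (by positivity) hz0).1 h1

/-- **Theorem.** -/
theorem final (β A : ℝ) (hβ1 : 1 ≤ β) (hβ2 : β < 11 / 10) (hA : 1 / (11 - 10 * β) < A) :
    ∃ δ C : ℝ, 0 < δ ∧ ∀ (k : ℤ), k % 2 = 1 → ∀ Z : Finset ℤ, IsCycle k Z →
      ∀ m ∈ Z, (∀ z ∈ Z, |m| ≤ |z|) →
      ((Z.filter fun z : ℤ => (3 : ℝ) ^ β * |(m : ℝ)| < |(z : ℝ)|).card : ℝ) ≤ δ * Z.card →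
      |(m : ℝ)| ≤ C * |(k : ℝ)| ^ A ∧ (Z.card : ℝ) ≤ C * |(k : ℝ)| ^ A := by
  obtain ⟨δ, C, hδ, hδ1, hC, hmain⟩ := least_le β A hβ1 hβ2 hA
  have hd : 0 < 11 - 10 * β := by linarith
  have hA1 : 1 ≤ A := by
    refine le_trans ?_ hA.le
    rw [le_div_iff₀ hd]
    linarith
  refine ⟨δ, 32 * (C + 1), hδ, fun k hk Z hZ m hm hmin hconc => ?_⟩
  have hk1 : (1 : ℝ) ≤ |(k : ℝ)| := by
    have : 1 ≤ |k| := Int.one_le_abs (by omega)
    exact_mod_cast this
  have hkA : |(k : ℝ)| ≤ |(k : ℝ)| ^ A := by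
    calc |(k : ℝ)| = |(k : ℝ)| ^ (1 : ℝ) := (Real.rpow_one _).symm
      _ ≤ |(k : ℝ)| ^ A := Real.rpow_le_rpow_of_exponent_le hk1 hA1
  have hm1 : |(m : ℝ)| ≤ (C + 1) * |(k : ℝ)| ^ A := by
    rcases le_or_gt |m| |k| with h | h
    · have h1 : |(m : ℝ)| ≤ |(k : ℝ)| := by exact_mod_cast h
      nlinarith
    · have hm0 : m ≠ 0 := by
        intro h0
        rw [h0, abs_zero] at h
        exact absurd h (not_lt.2 (abs_nonneg _))
      have key : |(m : ℝ)| ≤ C * |(k : ℝ)| ^ A := by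
        rcases lt_or_gt_of_ne hm0 with h0 | h0
        · have h1 := pos_final hmain (-k) (by omega) (Z.image fun z => -z) (cyc_neg hk hZ) (-m)
            (Finset.mem_image.2 ⟨m, hm, rfl⟩)
            (by
              intro z hz
              rw [Finset.mem_image] at hz
              obtain ⟨w, hw, rfl⟩ := hz
              rw [abs_neg, abs_neg]
              exact hmin w hw)
            (by rw [abs_neg, abs_neg]; exact h) (by omega)
            (by
              have hinj : Function.Injective (fun z : ℤ => -z) := neg_injective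
              rw [Finset.card_image_of_injective _ hinj, Finset.filter_image,
                Finset.card_image_of_injective _ hinj]
              refine le_trans (le_of_eq ?_) hconc
              congr 2
              apply Finset.filter_congr
              intro z _
              push_cast
              rw [abs_neg, abs_neg])
          push_cast at h1
          rwa [abs_neg, abs_neg] at h1
        · exact pos_final hmain k hk Z hZ m hm hmin h h0 hconc
      nlinarith
  have hkAp : 0 ≤ |(k : ℝ)| ^ A := by positivity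
  constructor
  · refine hm1.trans ?_
    apply mul_le_mul_of_nonneg_right _ hkAp
    linarith
  · -- the number of elements
    set F := Z.filter fun z : ℤ => (3 : ℝ) ^ β * |(m : ℝ)| < |(z : ℝ)| with hF
    set N : ℕ := 9 * m.natAbs with hN
    have h3β : (3 : ℝ) ^ β ≤ 9 := by
      calc (3 : ℝ) ^ β ≤ 3 ^ (2 : ℝ) :=
            Real.rpow_le_rpow_of_exponent_le (by norm_num) (by linarith)
        _ = 9 := by norm_num
    have hcov : Z ⊆ F ∪ Finset.Icc (-(N : ℤ)) N := by
      intro z hz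
      rw [Finset.mem_union]
      by_cases h : (3 : ℝ) ^ β * |(m : ℝ)| < |(z : ℝ)|
      · exact Or.inl (Finset.mem_filter.2 ⟨hz, h⟩)
      · right
        rw [Finset.mem_Icc, ← abs_le]
        have h1 : |(z : ℝ)| ≤ 9 * |(m : ℝ)| :=
          (not_lt.1 h).trans (mul_le_mul_of_nonneg_right h3β (abs_nonneg _))
        have h2 : |z| ≤ 9 * |m| := by exact_mod_cast h1
        rw [hN]
        push_cast
        exact h2
    have h1 : Z.card ≤ F.card + (2 * N + 1) := by
      refine (Finset.card_le_card hcov).trans ((Finset.card_union_le _ _).trans ?_)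
      rw [Int.card_Icc]
      omega
    have h2 : (Z.card : ℝ) ≤ F.card + (2 * N + 1) := by exact_mod_cast h1
    have hNr : (N : ℝ) = 9 * |(m : ℝ)| := by
      rw [hN]
      push_cast
      rw [Nat.cast_natAbs]
      push_cast
      ring
    have h3 : (F.card : ℝ) ≤ 1 / 4 * Z.card :=
      hconc.trans (mul_le_mul_of_nonneg_right hδ1 (Nat.cast_nonneg _))
    rw [hNr] at h2
    have h4 : (1 : ℝ) ≤ |(k : ℝ)| ^ A := hk1.trans hkA
    nlinarith

end Pool.Agent.H621.Uni
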