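import Mathlib
import Pool.Agent.H621.Uni.Final

set_option autoImplicit false

/-!
The number of concentrated cycles.
-/

namespace Pool.Agent.H621.Uni

open Pool.Agent.H621.Osc

/-- two cycles with a common element are equal -/
theorem cyc_unique {k : ℤ} {Z Z' : Finset ℤ} (h : IsCycle k Z) (h' : IsCycle k Z') (m : ℤ)
    (hm : m ∈ Z) (hm' : m ∈ Z') : Z = Z' := by
  apply Finset.Subset.antisymm
  · intro z hz
    rw [(cyc_eq h m hm).2.2, Finset.mem_image] at hz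
    obtain ⟨i, _, rfl⟩ := hz
    exact cyc_iter h' m hm' i
  · intro z hz
    rw [(cyc_eq h' m hm').2.2, Finset.mem_image] at hz
    obtain ⟨i, _, rfl⟩ := hz
    exact cyc_iter h m hm i

/-- the cycles with an element in `[-X, X]` -/
theorem number_le (k : ℤ) (S : Set (Finset ℤ)) (X : ℝ) (hX : 0 ≤ X)
    (hS : ∀ Z ∈ S, IsCycle k Z ∧ ∃ m ∈ Z, |(m : ℝ)| ≤ X) :
    S.Finite ∧ (S.ncard : ℝ) ≤ 2 * X + 1 := by
  classical
  choose! hc f hf using hS
  have hinj : Set.InjOn f S := by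
    intro Z hZ Z' hZ' heq
    exact cyc_unique (hc Z hZ) (hc Z' hZ') (f Z) (hf Z hZ).1 (heq ▸ (hf Z' hZ').1)
  have hmaps : Set.MapsTo f S (Finset.Icc (-⌊X⌋) ⌊X⌋ : Finset ℤ) := by
    intro Z hZ
    rw [Finset.coe_Icc, Set.mem_Icc, ← abs_le]
    apply Int.le_floor.2
    push_cast
    exact (hf Z hZ).2
  have hfin : S.Finite := Set.Finite.of_injOn hmaps hinj (Finset.finite_toSet _)
  refine ⟨hfin, ?_⟩
  have h1 := Set.ncard_le_ncard_of_injOn f hmaps hinj (Finset.finite_toSet _)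
  rw [Set.ncard_coe_finset, Int.card_Icc] at h1
  have h2 : 0 ≤ ⌊X⌋ := Int.floor_nonneg.2 hX
  have h3 : (S.ncard : ℤ) ≤ 2 * ⌊X⌋ + 1 := by omega
  have h4 : (S.ncard : ℝ) ≤ 2 * ⌊X⌋ + 1 := by exact_mod_cast h3
  have h5 := Int.floor_le X
  linarith

end Pool.Agent.H621.Uni
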